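import Pool.Agent.W830.RD.Stm

/-!
# Project RD, part DET: the deterministic theorem for graphs
-/

set_option autoImplicit false

namespace Pool.Agent.W962.RD.Det

open Finset Filter Topology
open scoped Classical
open Pool.Agent.W830.RD

noncomputable section

/-! ### Realisers -/

theorem Rlz_comp {α β : Type} {le : α → α → Prop} {le' : β → β → Prop} (φ : β → α)
    (hφ : Function.Injective φ) (h : ∀ x y, le' x y ↔ le (φ x) (φ y)) {k : ℕ} (hR : Rlz le k) :
    Rlz le' k := by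
  obtain ⟨f, h1, h2⟩ := hR
  exact ⟨fun i x => f i (φ x), fun i => (h1 i).comp hφ, fun x y => by rw [h, h2]⟩

theorem Rlz_mono {α : Type} {le : α → α → Prop} {k k' : ℕ} (hk : 1 ≤ k) (hkk : k ≤ k')
    (hR : Rlz le k) : Rlz le k' := by
  obtain ⟨f, h1, h2⟩ := hR
  refine ⟨fun i => f ⟨min i (k - 1), by omega⟩, fun i => h1 _, fun x y => ?_⟩
  rw [h2]
  constructor
  · intro h i
    exact h _
  · intro h i
    have h4 : (⟨min (i : ℕ) (k - 1), by omega⟩ : Fin k) = i := by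
      apply Fin.ext
      show min (i : ℕ) (k - 1) = i
      omega
    have h3 : f ⟨min (i : ℕ) (k - 1), by omega⟩ x ≤ f ⟨min (i : ℕ) (k - 1), by omega⟩ y :=
      h ⟨i, by omega⟩
    rw [h4] at h3
    exact h3

/-! ### Blocks -/

theorem gle_le {n : ℕ} {E : Finset (Fin n × Fin n)} (hE : E ⊆ Om n) {x y : Fin n}
    (h : gle E x y) : x ≤ y := by
  unfold gle at h
  induction h with
  | refl => exact le_rfl
  | tail _ hbc ih =>
    have h1 := hE hbc
    unfold Om at h1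
    exact ih.trans (mem_filter.mp h1).2.le

/-- the elements of a block -/
structure Blk {n : ℕ} (E : Finset (Fin n × Fin n)) (hE : E ⊆ Om n) (B : Finset (Fin n)) where
  val : Fin n
  mem : val ∈ B

variable {n : ℕ} {E : Finset (Fin n × Fin n)} {hE : E ⊆ Om n} {B : Finset (Fin n)}

theorem Blk.val_inj : Function.Injective (Blk.val : Blk E hE B → Fin n) := by
  rintro ⟨x, hx⟩ ⟨y, hy⟩ h
  simp only at h
  subst h
  rfl

instance : Fintype (Blk E hE B) := Fintype.ofInjective Blk.val Blk.val_inj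

instance : PartialOrder (Blk E hE B) where
  le x y := gle E x.val y.val
  le_refl x := Relation.ReflTransGen.refl
  le_trans x y z := Relation.ReflTransGen.trans
  le_antisymm x y h1 h2 := Blk.val_inj (le_antisymm (gle_le hE h1) (gle_le hE h2))

theorem Inc_edge {x y : Blk E hE B} (h : Inc x y) :
    (x.val, y.val) ∉ E ∧ (y.val, x.val) ∉ E :=
  ⟨fun h1 => h.1 (Relation.ReflTransGen.single h1),
    fun h1 => h.2 (Relation.ReflTransGen.single h1)⟩

/-- an occurrence from an injective function -/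
theorem occ_of {r m v : ℕ} (π : Finset (Fin r × Fin r)) (F : Fin r → Blk E hE B)
    (hF : Function.Injective F)
    (hB : ∀ x ∈ B, v ≤ (x : ℕ) ∧ (x : ℕ) < v + m) (hπ : ∀ e ∈ π, Inc (F e.1) (F e.2)) :
    Occ m r π E :=
  ⟨v, fun i => (F i).val, Blk.val_inj.comp hF, fun i => hB _ (F i).mem,
    fun e he => Inc_edge (hπ e he)⟩

/-- groups of antichains give an occurrence of `pat1` -/
theorem groups {α : Type} [PartialOrder α] (K g : ℕ) (A : Fin K → Finset α)
    (hA : ∀ i, Anti (A i) ∧ (A i).card = g) (hd : ∀ i j, i ≠ j → Disjoint (A i) (A j)) :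
    ∃ F : Fin (K * g) → α, Function.Injective F ∧ ∀ e ∈ pat1 K g, Inc (F e.1) (F e.2) := by
  set en : ∀ i, Fin g ≃ A i := fun i => ((A i).equivFinOfCardEq (hA i).2).symm with hen
  set F : Fin (K * g) → α := fun j => (en j.divNat j.modNat : α) with hF
  have hmem : ∀ j, F j ∈ A j.divNat := fun j => (en j.divNat j.modNat).2
  have hinj : Function.Injective F := by
    intro j j' h
    have h1 : j.divNat = j'.divNat := by
      by_contra hne
      have h2 := Finset.disjoint_left.mp (hd _ _ hne) (hmem j)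
      rw [h] at h2
      exact h2 (hmem j')
    have h3 : j.modNat = j'.modNat := by
      have h4 : ∀ (i i' : Fin K), i = i' → ∀ a b : Fin g, (en i a : α) = en i' b → a = b := by
        rintro i _ rfl a b hab
        exact (en i).injective (Subtype.ext hab)
      exact h4 _ _ h1 _ _ h
    have h5 : finProdFinEquiv.symm j = finProdFinEquiv.symm j' := Prod.ext h1 h3
    exact finProdFinEquiv.symm.injective h5
  refine ⟨F, hinj, fun e he => ?_⟩
  unfold pat1 at he
  obtain ⟨-, h1, h2⟩ := mem_filter.mp he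
  have h3 : e.1.divNat = e.2.divNat := Fin.ext h2
  have h4 : F e.1 ≠ F e.2 := fun h => h1.ne (hinj h)
  have h5 := hmem e.1
  have h6 := hmem e.2
  rw [h3] at h5
  have h7 := (hA e.2.divNat).1
  exact ⟨fun h => h4 (h7 _ h5 _ h6 h), fun h => h4 (h7 _ h6 _ h5 h).symm⟩

/-- the combined pattern -/
theorem combined {α : Type} [PartialOrder α] {a r1 r2 : ℕ} (fA : Fin a → α) (f1 : Fin r1 → α)
    (f2 : Fin r2 → α) (hA : Function.Injective fA) (h1 : Function.Injective f1)
    (h2 : Function.Injective f2) (hA1 : ∀ i j, fA i ≠ f1 j) (hA2 : ∀ i j, fA i ≠ f2 j)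
    (h12 : ∀ i j, f1 i ≠ f2 j) (hinc : ∀ i j, i ≠ j → Inc (fA i) (fA j))
    (π1 : Finset (Fin r1 × Fin r1)) (π2 : Finset (Fin r2 × Fin r2))
    (hπ1 : ∀ e ∈ π1, Inc (f1 e.1) (f1 e.2)) (hπ2 : ∀ e ∈ π2, Inc (f2 e.1) (f2 e.2)) :
    ∃ F : Fin (a + r1 + r2) → α, Function.Injective F ∧
      ∀ e ∈ comb a r1 r2 π1 π2, Inc (F e.1) (F e.2) := by
  set F : Fin (a + r1 + r2) → α := Fin.append (Fin.append fA f1) f2 with hF
  have eA : ∀ i : Fin a, F (Fin.castAdd r2 (Fin.castAdd r1 i)) = fA i := fun i => by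
    rw [hF, Fin.append_left, Fin.append_left]
  have e1 : ∀ i : Fin r1, F (Fin.castAdd r2 (Fin.natAdd a i)) = f1 i := fun i => by
    rw [hF, Fin.append_left, Fin.append_right]
  have e2 : ∀ i : Fin r2, F (Fin.natAdd (a + r1) i) = f2 i := fun i => by
    rw [hF, Fin.append_right]
  have hcase : ∀ x : Fin (a + r1 + r2), (∃ i : Fin a, x = Fin.castAdd r2 (Fin.castAdd r1 i)) ∨
      (∃ i : Fin r1, x = Fin.castAdd r2 (Fin.natAdd a i)) ∨
      ∃ i : Fin r2, x = Fin.natAdd (a + r1) i := by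
    intro x
    by_cases c1 : (x : ℕ) < a
    · exact Or.inl ⟨⟨x, c1⟩, Fin.ext rfl⟩
    by_cases c2 : (x : ℕ) < a + r1
    · refine Or.inr (Or.inl ⟨⟨x - a, by omega⟩, Fin.ext ?_⟩)
      show (x : ℕ) = a + (x - a)
      omega
    · refine Or.inr (Or.inr ⟨⟨x - (a + r1), by omega⟩, Fin.ext ?_⟩)
      show (x : ℕ) = a + r1 + (x - (a + r1))
      omega
  refine ⟨F, ?_, ?_⟩
  · intro x y hxy
    rcases hcase x with ⟨i, rfl⟩ | ⟨i, rfl⟩ | ⟨i, rfl⟩ <;>
      rcases hcase y with ⟨j, rfl⟩ | ⟨j, rfl⟩ | ⟨j, rfl⟩ <;>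
      simp only [eA, e1, e2] at hxy
    · rw [hA hxy]
    · exact absurd hxy (hA1 _ _)
    · exact absurd hxy (hA2 _ _)
    · exact absurd hxy.symm (hA1 _ _)
    · rw [h1 hxy]
    · exact absurd hxy (h12 _ _)
    · exact absurd hxy.symm (hA2 _ _)
    · exact absurd hxy.symm (h12 _ _)
    · rw [h2 hxy]
  · intro e he
    unfold comb at he
    obtain ⟨-, hlt, h3⟩ := mem_filter.mp he
    rcases h3 with h3 | ⟨f, hf, h4, h5⟩ | ⟨f, hf, h4, h5⟩
    · have hlt' : (e.1 : ℕ) < (e.2 : ℕ) := hlt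
      have k1 : e.1 = Fin.castAdd r2 (Fin.castAdd r1 ⟨e.1, by omega⟩) := Fin.ext rfl
      have k2 : e.2 = Fin.castAdd r2 (Fin.castAdd r1 ⟨e.2, h3⟩) := Fin.ext rfl
      rw [k1, k2, eA, eA]
      refine hinc _ _ fun h => ?_
      have h6 : (⟨e.1, by omega⟩ : Fin a).val = (⟨e.2, h3⟩ : Fin a).val := congrArg Fin.val h
      exact hlt'.ne h6
    · have k1 : e.1 = Fin.castAdd r2 (Fin.natAdd a f.1) := Fin.ext h4
      have k2 : e.2 = Fin.castAdd r2 (Fin.natAdd a f.2) := Fin.ext h5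
      rw [k1, k2, e1, e1]
      exact hπ1 f hf
    · have k1 : e.1 = Fin.natAdd (a + r1) f.1 := Fin.ext h4
      have k2 : e.2 = Fin.natAdd (a + r1) f.2 := Fin.ext h5
      rw [k1, k2, e2, e2]
      exact hπ2 f hf

theorem main (hB : S_BLOCK) (hO : S_OSUM) (hP : S_PCARD) : S_DET := by
  intro K t Pi hPi n m g N0 N1 T2 k E hE hm hGap hg hocc1 hocc2 hnum hk1 hk2
  refine hO n m k E hE hm hGap (by omega) fun B hBw => ?_
  obtain ⟨v, hv⟩ := hBw
  have hR : Rlz (fun x y : Blk E hE B => x ≤ y) k := by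
    have hno : ¬ ∃ A : Fin K → Finset (Blk E hE B), (∀ i, Anti (A i) ∧ (A i).card = g) ∧
        ∀ i j, i ≠ j → Disjoint (A i) (A j) := by
      rintro ⟨A, hA, hd⟩
      obtain ⟨F, hFi, hFc⟩ := groups K g A hA hd
      exact hocc1 (occ_of _ F hFi hv hFc)
    rcases hB K t Pi hPi (Blk E hE B) g N0 hg hno with h | h
    · exact Rlz_mono (by omega) hk1 h
    · obtain ⟨r1, r2, fA, f1, f2, hr1, hr2, iA, i1, i2, hA1, hA2, h12, hinc, π1, hπ1, π2, hπ2,
        hI1, hI2, hfin⟩ := h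
      obtain ⟨F, hFi, hFc⟩ := combined fA f1 f2 iA i1 i2 hA1 hA2 h12 hinc π1 π2 hI1 hI2
      have hocc : Occ (2 * m) (N0 + 1 + r1 + r2) (comb (N0 + 1) r1 r2 π1 π2) E :=
        occ_of _ F hFi hv hFc
      have hlt : (comb (N0 + 1) r1 r2 π1 π2).card < T2 := by
        by_contra hcon
        push Not at hcon
        exact hocc2 ⟨r1, hr1, r2, hr2, π1, hπ1, π2, hπ2, hcon, hocc⟩
      have hc := hP.2 (N0 + 1) r1 r2 π1 π2 ((hPi r1).2.1 π1 hπ1) ((hPi r2).2.1 π2 hπ2)
      have e0 : N0 + 1 - 1 = N0 := by omega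
      rw [e0] at hc
      refine Rlz_mono (by omega) hk2 (hfin N1 ?_)
      omega
  exact Rlz_comp (fun x => ⟨x.1, x.2⟩) (fun x y h => Subtype.ext (congrArg Blk.val h))
    (fun x y => Iff.rfl) hR

end

end Pool.Agent.W962.RD.Det
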